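import Pool.Agent.helper24.NR.Spec

set_option autoImplicit false

/-!
# Row PBB of project NR (MP_133bfc_co)
-/

namespace Pool.Agent.NR

open Finset

theorem PBB_sub {V F : Type} [Fintype V] [Fintype F] (vs : F → Finset V) (es : F → Finset (Sym2 V))
    (x y : V) : SX vs es x y ⊆ FX vs x := by
  classical
  unfold SX
  exact Finset.filter_subset _ _

theorem PBB_mem {V F : Type} [Fintype V] [Fintype F] (vs : F → Finset V) (x y : V) (p : F × F) :
    p ∈ PP vs x y ↔ (p.1 ∈ FX vs x ∧ p.2 ∈ FX vs y) ∧ ∃ w, w ∈ vs p.1 ∧ w ∈ vs p.2 := by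
  classical
  unfold PP
  rw [mem_filter, mem_product]

theorem PBB_fx {V F : Type} [Fintype V] [Fintype F] (vs : F → Finset V) (x : V) (f : F) :
    f ∈ FX vs x ↔ x ∈ vs f := by
  classical
  unfold FX
  rw [mem_filter]
  exact ⟨fun h => h.2, fun h => ⟨mem_univ _, h⟩⟩

theorem PBB (hSYM : SYM_stmt) (hSMA : SMA_stmt) : PBB_stmt := by
  classical
  intro V F _ _ vs es x y hB
  have hx := hSMA V F vs es x y hB
  have hy := hSMA V F vs es y x (hSYM V F vs es x y hB)
  refine ⟨(FX vs x \ SX vs es x y).card, (FX vs y \ SX vs es y x).card,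
    Finset.card_sdiff_add_card_eq_card (PBB_sub vs es x y),
    Finset.card_sdiff_add_card_eq_card (PBB_sub vs es y x), ?_, ?_⟩
  · set A : Finset (F × F) := (PP vs x y).filter fun p => p.1 ∈ SX vs es x y with hA
    set B : Finset (F × F) := (PP vs x y).filter fun p => p.2 ∈ SX vs es y x with hBd
    have h1 : PP vs x y ⊆ ((FX vs x \ SX vs es x y) ×ˢ (FX vs y \ SX vs es y x) ∪ A) ∪ B := by
      intro p hp
      obtain ⟨⟨h2, h3⟩, h4⟩ := (PBB_mem vs x y p).1 hp
      by_cases h5 : p.1 ∈ SX vs es x y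
      · exact mem_union_left _ (mem_union_right _ (by rw [hA, mem_filter]; exact ⟨hp, h5⟩))
      · by_cases h6 : p.2 ∈ SX vs es y x
        · exact mem_union_right _ (by rw [hBd, mem_filter]; exact ⟨hp, h6⟩)
        · refine mem_union_left _ (mem_union_left _ ?_)
          rw [mem_product, mem_sdiff, mem_sdiff]
          exact ⟨⟨h2, h5⟩, ⟨h3, h6⟩⟩
    have hAc : A.card ≤ (SX vs es x y).card := by
      refine Finset.card_le_card_of_injOn Prod.fst ?_ ?_
      · intro p hp
        rw [mem_coe, hA, mem_filter] at hp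
        exact hp.2
      · intro p hp q hq hpq
        rw [mem_coe, hA, mem_filter] at hp hq
        obtain ⟨g, -, -, hg⟩ := hx p.1 hp.2
        obtain ⟨⟨-, h3⟩, h4⟩ := (PBB_mem vs x y p).1 hp.1
        obtain ⟨⟨-, h5⟩, h6⟩ := (PBB_mem vs x y q).1 hq.1
        rw [← hpq] at h6
        exact Prod.ext hpq (((hg _ h3).1 h4).trans ((hg _ h5).1 h6).symm)
    have hBc : B.card ≤ (SX vs es y x).card := by
      refine Finset.card_le_card_of_injOn Prod.snd ?_ ?_
      · intro p hp
        rw [mem_coe, hBd, mem_filter] at hp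
        exact hp.2
      · intro p hp q hq hpq
        rw [mem_coe, hBd, mem_filter] at hp hq
        obtain ⟨g, -, -, hg⟩ := hy p.2 hp.2
        obtain ⟨⟨h3, -⟩, w, h4, h4'⟩ := (PBB_mem vs x y p).1 hp.1
        obtain ⟨⟨h5, -⟩, w', h6, h6'⟩ := (PBB_mem vs x y q).1 hq.1
        rw [← hpq] at h6'
        exact Prod.ext (((hg _ h3).1 ⟨w, h4', h4⟩).trans ((hg _ h5).1 ⟨w', h6', h6⟩).symm) hpq
    have h2 := Finset.card_le_card h1
    have h3 := Finset.card_union_le ((FX vs x \ SX vs es x y) ×ˢ (FX vs y \ SX vs es y x) ∪ A) B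
    have h4 := Finset.card_union_le ((FX vs x \ SX vs es x y) ×ˢ (FX vs y \ SX vs es y x)) A
    rw [Finset.card_product] at h4
    omega
  · obtain ⟨f, hf⟩ := hB.cfg.covered x
    have hf' : f ∈ FX vs x := (PBB_fx vs x f).2 hf
    by_cases h5 : f ∈ SX vs es x y
    · right
      obtain ⟨g, hg1, hg2, -⟩ := hx f h5
      exact Finset.card_pos.2 ⟨g, mem_sdiff.2 ⟨hg1, hg2⟩⟩
    · left
      exact Finset.card_pos.2 ⟨f, mem_sdiff.2 ⟨hf', h5⟩⟩

end Pool.Agent.NR
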